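import Mathlib

/-!
# A non-tridiagonal irreducible module of the tridiagonal algebra with unequal eigenspaces

For `β = -1` the tridiagonal relations read `[A^3 - γ A^2 - ρ A, B] = 0 = [B^3 - γ' B^2 - ρ' B, A]`.
Take `A` diagonal with three distinct eigenvalues and `B` the idempotent
`x ↦ (x 0 + x 1 - x 2) (1, 1, 1)` of rank one.  Both relations hold for suitable parameters, the
module is irreducible, all the eigenspaces of `A` are lines, and the kernel of `B` is a plane.
-/

set_option autoImplicit false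

namespace Pool.Agent.Results.MP_2c723a_al.UnequalEigenspaces

open Module

universe u

/-- The element `[A, A^2 B - β A B A + B A^2 - γ (A B + B A) - ρ B]`, where `[X, Y] = X Y - Y X`. -/
def tdElement {K : Type u} [Field K] {R : Type u} [Ring R] [Algebra K R] (β γ ρ : K) (A B : R) : R :=
  A * (A ^ 2 * B - β • (A * B * A) + B * A ^ 2 - γ • (A * B + B * A) - ρ • B) -
    (A ^ 2 * B - β • (A * B * A) + B * A ^ 2 - γ • (A * B + B * A) - ρ • B) * A

/-- The two defining relations of the tridiagonal algebra; the generators of the free algebra are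
`A = ι 0` and `A* = ι 1`. -/
inductive TRel (K : Type u) [Field K] (β γ γ' ρ ρ' : K) :
    FreeAlgebra K (Fin 2) → FreeAlgebra K (Fin 2) → Prop
  | first : TRel K β γ γ' ρ ρ'
      (tdElement β γ ρ (FreeAlgebra.ι K (0 : Fin 2)) (FreeAlgebra.ι K (1 : Fin 2))) 0
  | second : TRel K β γ γ' ρ ρ'
      (tdElement β γ' ρ' (FreeAlgebra.ι K (1 : Fin 2)) (FreeAlgebra.ι K (0 : Fin 2))) 0

/-- The tridiagonal algebra `T(β, γ, γ*, ρ, ρ*)` over `K`. -/
abbrev TAlg (K : Type u) [Field K] (β γ γ' ρ ρ' : K) : Type u := RingQuot (TRel K β γ γ' ρ ρ')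

/-- The generator `A` (for `i = 0`) or `A*` (for `i = 1`) of the tridiagonal algebra. -/
def gen (K : Type u) [Field K] (β γ γ' ρ ρ' : K) (i : Fin 2) : TAlg K β γ γ' ρ ρ' :=
  RingQuot.mkAlgHom K (TRel K β γ γ' ρ ρ') (FreeAlgebra.ι K i)

/-- An endomorphism is diagonalizable if its eigenspaces span the space. -/
def IsDiag {K V : Type u} [Field K] [AddCommGroup V] [Module K V] (A : End K V) : Prop :=
  ⨆ μ : K, A.eigenspace μ = ⊤

/-- The eigenspaces of `A` have an ordering `V_0, …, V_d` with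
`B V_i ⊆ V_{i-1} + V_i + V_{i+1}` for all `i`. -/
def ActsTridiagonally {K V : Type u} [Field K] [AddCommGroup V] [Module K V]
    (A B : End K V) : Prop :=
  ∃ (d : ℕ) (θ : Fin (d + 1) → K), Function.Injective θ ∧
    (∀ μ : K, A.HasEigenvalue μ ↔ μ ∈ Set.range θ) ∧
    ∀ i : Fin (d + 1), (A.eigenspace (θ i)).map B ≤
      ⨆ j : Fin (d + 1), ⨆ _ : (i : ℕ) ≤ (j : ℕ) + 1 ∧ (j : ℕ) ≤ (i : ℕ) + 1, A.eigenspace (θ j)

/-- `A, B` is a tridiagonal pair on the nonzero finite-dimensional space `V`. -/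
def IsTridiagonalPair {K V : Type u} [Field K] [AddCommGroup V] [Module K V]
    (A B : End K V) : Prop :=
  FiniteDimensional K V ∧ Nontrivial V ∧ IsDiag A ∧ IsDiag B ∧
    ActsTridiagonally A B ∧ ActsTridiagonally B A ∧
    ∀ W : Submodule K V, W.map A ≤ W → W.map B ≤ W → W = ⊥ ∨ W = ⊤

section Example

variable {K : Type u} [Field K]

theorem map_tdElement {R S : Type u} [Ring R] [Algebra K R] [Ring S] [Algebra K S]
    (f : R →ₐ[K] S) (β γ ρ : K) (A B : R) :
    f (tdElement β γ ρ A B) = tdElement β γ ρ (f A) (f B) := by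
  simp [tdElement]

/-- The diagonal endomorphism. -/
def opA (θ : Fin 3 → K) : End K (Fin 3 → K) where
  toFun x := fun i => θ i * x i
  map_add' x y := by ext i; simp [mul_add]
  map_smul' c x := by ext i; simp [mul_left_comm]

/-- The rank one idempotent. -/
def opB (K : Type u) [Field K] : End K (Fin 3 → K) where
  toFun x := fun _ => x 0 + x 1 - x 2
  map_add' x y := by ext i; simp; ring
  map_smul' c x := by ext i; simp; ring

@[simp] theorem opA_apply (θ x : Fin 3 → K) (i : Fin 3) : opA θ x i = θ i * x i := rfl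

@[simp] theorem opB_apply (x : Fin 3 → K) (i : Fin 3) : opB K x i = x 0 + x 1 - x 2 := rfl

theorem opB_sq : opB K * opB K = opB K := by
  refine LinearMap.ext fun x => funext fun i => ?_
  simp

theorem rel_first (θ : Fin 3 → K) :
    tdElement (-1 : K) (θ 0 + θ 1 + θ 2) (-(θ 0 * θ 1 + θ 1 * θ 2 + θ 2 * θ 0))
      (opA θ) (opB K) = 0 := by
  unfold tdElement
  refine LinearMap.ext fun x => funext fun i => ?_
  simp only [pow_two, Module.End.mul_apply, LinearMap.sub_apply, LinearMap.add_apply,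
    LinearMap.smul_apply, opA_apply, opB_apply, Pi.sub_apply, Pi.add_apply, Pi.smul_apply,
    smul_eq_mul, LinearMap.zero_apply, Pi.zero_apply]
  fin_cases i <;> simp <;> ring

theorem rel_second (θ : Fin 3 → K) :
    tdElement (-1 : K) 1 0 (opB K) (opA θ) = 0 := by
  unfold tdElement
  refine LinearMap.ext fun x => funext fun i => ?_
  simp only [pow_two, Module.End.mul_apply, LinearMap.sub_apply, LinearMap.add_apply,
    LinearMap.smul_apply, opA_apply, opB_apply, Pi.sub_apply, Pi.add_apply, Pi.smul_apply,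
    smul_eq_mul, LinearMap.zero_apply, Pi.zero_apply]
  fin_cases i <;> simp <;> ring

/-- The representation of the tridiagonal algebra. -/
def rep (θ : Fin 3 → K) :
    TAlg K (-1) (θ 0 + θ 1 + θ 2) 1 (-(θ 0 * θ 1 + θ 1 * θ 2 + θ 2 * θ 0)) 0 →ₐ[K]
      End K (Fin 3 → K) :=
  RingQuot.liftAlgHom K ⟨FreeAlgebra.lift K ![opA θ, opB K], by
    intro x y h
    cases h with
    | first =>
      rw [map_tdElement, map_zero]
      simpa using rel_first θ
    | second =>
      rw [map_tdElement, map_zero]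
      simpa using rel_second θ⟩

theorem rep_gen_zero (θ : Fin 3 → K) : rep θ (gen K _ _ _ _ _ 0) = opA θ := by
  simp [rep, gen]

theorem rep_gen_one (θ : Fin 3 → K) : rep θ (gen K _ _ _ _ _ 1) = opB K := by
  simp [rep, gen]

theorem mem_eigenspace_opA (θ : Fin 3 → K) (μ : K) (x : Fin 3 → K) :
    x ∈ (opA θ).eigenspace μ ↔ ∀ i, (θ i - μ) * x i = 0 := by
  rw [End.mem_eigenspace_iff, funext_iff]
  refine forall_congr' fun i => ?_
  simp only [opA_apply, Pi.smul_apply, smul_eq_mul, sub_mul, sub_eq_zero]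

theorem single_mem_eigenspace (θ : Fin 3 → K) (i : Fin 3) (c : K) :
    Pi.single i c ∈ (opA θ).eigenspace (θ i) := by
  rw [mem_eigenspace_opA]
  intro j
  rcases eq_or_ne j i with rfl | h
  · simp
  · simp [h]

theorem hasEigenvalue_opA (θ : Fin 3 → K) (μ : K) :
    (opA θ).HasEigenvalue μ ↔ ∃ i, θ i = μ := by
  constructor
  · intro h
    obtain ⟨x, hx⟩ := h.exists_hasEigenvector
    by_contra hne
    push Not at hne
    apply hx.2
    funext i
    have := (mem_eigenspace_opA θ μ x).1 hx.1 i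
    rcases mul_eq_zero.1 this with h1 | h1
    · exact absurd (sub_eq_zero.1 h1) (hne i)
    · exact h1
  · rintro ⟨i, rfl⟩
    refine End.hasEigenvalue_of_hasEigenvector (x := Pi.single i 1)
      ⟨single_mem_eigenspace θ i 1, ?_⟩
    intro h
    have := congrFun h i
    simp at this

theorem isDiag_opA (θ : Fin 3 → K) : IsDiag (opA θ) := by
  unfold IsDiag
  rw [eq_top_iff]
  intro x _
  have hx : x = ∑ i, Pi.single i (x i) := by
    funext j
    simp [Finset.sum_apply, Pi.single_apply]
  rw [hx]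
  refine Submodule.sum_mem _ fun i _ => ?_
  exact Submodule.mem_iSup_of_mem (θ i) (single_mem_eigenspace θ i _)

theorem isDiag_opB : IsDiag (opB K) := by
  unfold IsDiag
  rw [eq_top_iff]
  intro x _
  have hx : x = opB K x + (x - opB K x) := by abel
  rw [hx]
  refine Submodule.add_mem _ (Submodule.mem_iSup_of_mem 1 ?_) (Submodule.mem_iSup_of_mem 0 ?_)
  · rw [End.mem_eigenspace_iff]
    funext i
    simp
  · rw [End.mem_eigenspace_iff]
    funext i
    simp
    ring

theorem opB_mem_of_single {W : Submodule K (Fin 3 → K)} (hB : ∀ x ∈ W, opB K x ∈ W)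
    (i : Fin 3) (h : Pi.single i (1 : K) ∈ W) : (fun _ => (1 : K)) ∈ W := by
  have h1 := hB _ h
  fin_cases i
  · convert h1 using 1
    funext j
    simp
  · convert h1 using 1
    funext j
    simp
  · have h2 := W.neg_mem h1
    convert h2 using 1
    funext j
    simp

theorem single_mem_of_ne {θ : Fin 3 → K} (hθ : Function.Injective θ)
    {W : Submodule K (Fin 3 → K)} (hA : ∀ x ∈ W, opA θ x ∈ W) (x : Fin 3 → K) (hx : x ∈ W)
    (i : Fin 3) (hi : x i ≠ 0) : Pi.single i (1 : K) ∈ W := by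
  -- multiply by the product over the other two indices
  have key : ∀ j k : Fin 3, j ≠ i → k ≠ i → j ≠ k → Pi.single i (1 : K) ∈ W := by
    intro j k hj hk hjk
    have h1 : opA θ x - θ j • x ∈ W := W.sub_mem (hA _ hx) (W.smul_mem _ hx)
    have h2 : opA θ (opA θ x - θ j • x) - θ k • (opA θ x - θ j • x) ∈ W :=
      W.sub_mem (hA _ h1) (W.smul_mem _ h1)
    have h3 : (((θ i - θ j) * (θ i - θ k) * x i)⁻¹) •
        (opA θ (opA θ x - θ j • x) - θ k • (opA θ x - θ j • x)) ∈ W := W.smul_mem _ h2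
    have hne : (θ i - θ j) * (θ i - θ k) * x i ≠ 0 := by
      refine mul_ne_zero (mul_ne_zero ?_ ?_) hi
      · exact sub_ne_zero.2 fun h => hj (hθ h).symm
      · exact sub_ne_zero.2 fun h => hk (hθ h).symm
    convert h3 using 1
    funext l
    simp only [Pi.smul_apply, Pi.sub_apply, opA_apply, smul_eq_mul]
    rcases eq_or_ne l i with rfl | hl
    · rw [Pi.single_eq_same]
      rw [eq_comm, inv_mul_eq_one₀ hne]
      ring
    · rw [Pi.single_eq_of_ne hl]
      have hl' : l = j ∨ l = k := by omega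
      rcases hl' with rfl | rfl <;> ring
  fin_cases i
  · exact key 1 2 (by decide) (by decide) (by decide)
  · exact key 0 2 (by decide) (by decide) (by decide)
  · exact key 0 1 (by decide) (by decide) (by decide)

theorem eq_bot_or_eq_top {θ : Fin 3 → K} (hθ : Function.Injective θ)
    (W : Submodule K (Fin 3 → K)) (hA : ∀ x ∈ W, opA θ x ∈ W) (hB : ∀ x ∈ W, opB K x ∈ W) :
    W = ⊥ ∨ W = ⊤ := by
  rw [or_iff_not_imp_left]
  intro hW
  obtain ⟨x, hx, hx0⟩ := (Submodule.ne_bot_iff W).1 hW
  obtain ⟨i, hi⟩ := Function.ne_iff.1 hx0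
  have h1 := opB_mem_of_single hB i (single_mem_of_ne hθ hA x hx i hi)
  have h2 : ∀ j : Fin 3, Pi.single j (1 : K) ∈ W := fun j =>
    single_mem_of_ne hθ hA _ h1 j one_ne_zero
  rw [eq_top_iff]
  intro y _
  have hy : y = ∑ j, y j • Pi.single j (1 : K) := by
    funext l
    simp [Finset.sum_apply, Pi.single_apply]
  rw [hy]
  exact Submodule.sum_mem _ fun j _ => W.smul_mem _ (h2 j)

theorem not_actsTridiagonally {θ : Fin 3 → K} (hθ : Function.Injective θ) :
    ¬ ActsTridiagonally (opA θ) (opB K) := by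
  rintro ⟨d, τ, hτ, hev, hact⟩
  have h1 : ∀ k : Fin 3, ∃ j, τ j = θ k := fun k =>
    (hev (θ k)).1 ((hasEigenvalue_opA θ _).2 ⟨k, rfl⟩)
  choose g hg using h1
  have hginj : Function.Injective g := fun a b hab => hθ (by rw [← hg a, ← hg b, hab])
  have hcard : 3 ≤ d + 1 := by simpa using Fintype.card_le_of_injective g hginj
  obtain ⟨l, hl⟩ := (hasEigenvalue_opA θ (τ (Fin.last d))).1 ((hev _).2 ⟨_, rfl⟩)
  obtain ⟨k, hk⟩ := (hasEigenvalue_opA θ (τ 0)).1 ((hev _).2 ⟨_, rfl⟩)
  have h2 : opB K (Pi.single k 1) ∈ ((opA θ).eigenspace (τ 0)).map (opB K) :=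
    Submodule.mem_map_of_mem (by rw [← hk]; exact single_mem_eigenspace θ k 1)
  have h3 := hact 0 h2
  have h4 : (⨆ j : Fin (d + 1), ⨆ _ : ((0 : Fin (d + 1)) : ℕ) ≤ (j : ℕ) + 1 ∧
      (j : ℕ) ≤ ((0 : Fin (d + 1)) : ℕ) + 1, (opA θ).eigenspace (τ j)) ≤
      LinearMap.ker (LinearMap.proj l : (Fin 3 → K) →ₗ[K] K) := by
    refine iSup_le fun j => iSup_le fun hj => ?_
    intro x hx
    have h5 := (mem_eigenspace_opA θ _ x).1 hx l
    rw [LinearMap.mem_ker, LinearMap.proj_apply]
    refine (mul_eq_zero.1 h5).resolve_left ?_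
    rw [hl, sub_eq_zero]
    intro h6
    have h7 := hτ h6
    have h8 := hj.2
    rw [← h7] at h8
    simp at h8
    omega
  have h9 := h4 h3
  rw [LinearMap.mem_ker, LinearMap.proj_apply, opB_apply] at h9
  fin_cases k <;> simp at h9

theorem finrank_eigenspace_one : finrank K ((opB K).eigenspace 1) = 1 := by
  have h : (opB K).eigenspace 1 = Submodule.span K {fun _ => (1 : K)} := by
    ext x
    rw [End.mem_eigenspace_iff, Submodule.mem_span_singleton, one_smul]
    constructor
    · intro hx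
      refine ⟨x 0 + x 1 - x 2, ?_⟩
      rw [← hx]
      funext i
      simp
    · rintro ⟨c, rfl⟩
      funext i
      simp
  rw [h]
  exact finrank_span_singleton (by intro h; have := congrFun h 0; simp at this)

theorem finrank_eigenspace_zero : finrank K ((opB K).eigenspace 0) = 2 := by
  have h0 : (opB K).eigenspace 0 = LinearMap.ker (opB K) := End.eigenspace_zero _
  rw [h0]
  have h1 := LinearMap.finrank_range_add_finrank_ker (opB K)
  have h2 : LinearMap.range (opB K) = (opB K).eigenspace 1 := by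
    ext x
    rw [End.mem_eigenspace_iff, one_smul, LinearMap.mem_range]
    constructor
    · rintro ⟨y, rfl⟩
      exact LinearMap.congr_fun (opB_sq (K := K)) y
    · intro hx
      exact ⟨x, hx⟩
  rw [h2, finrank_eigenspace_one] at h1
  simp only [finrank_fintype_fun_eq_card, Fintype.card_fin] at h1
  omega

theorem hasEigenvalue_one : (opB K).HasEigenvalue 1 := by
  intro h
  have h' : (opB K).eigenspace 1 = ⊥ := h
  have := finrank_eigenspace_one (K := K)
  rw [h'] at this
  simp at this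

theorem hasEigenvalue_zero : (opB K).HasEigenvalue 0 := by
  intro h
  have h' : (opB K).eigenspace 0 = ⊥ := h
  have := finrank_eigenspace_zero (K := K)
  rw [h'] at this
  simp at this

end Example

/-- Over every field with at least three elements there are parameters and a finite-dimensional
irreducible module of the tridiagonal algebra on which `A` and `A*` are diagonalizable and do not
form a tridiagonal pair, while two eigenspaces of `A*` have different dimensions. -/
theorem result (K : Type u) [Field K] (hK : ∃ θ : Fin 3 → K, Function.Injective θ) :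
    ∃ (β γ γ' ρ ρ' : K) (V : Type u) (_ : AddCommGroup V) (_ : Module K V)
      (_ : Module (TAlg K β γ γ' ρ ρ') V) (_ : IsScalarTower K (TAlg K β γ γ' ρ ρ') V),
      FiniteDimensional K V ∧ IsSimpleModule (TAlg K β γ γ' ρ ρ') V ∧
      ∃ A B : End K V, (∀ v, A v = gen K β γ γ' ρ ρ' 0 • v) ∧
        (∀ v, B v = gen K β γ γ' ρ ρ' 1 • v) ∧
        IsDiag A ∧ IsDiag B ∧ ¬ IsTridiagonalPair A B ∧
        ∃ μ ν : K, B.HasEigenvalue μ ∧ B.HasEigenvalue ν ∧
          finrank K (B.eigenspace μ) ≠ finrank K (B.eigenspace ν) := by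
  obtain ⟨θ, hθ⟩ := hK
  letI : Module (TAlg K (-1) (θ 0 + θ 1 + θ 2) 1 (-(θ 0 * θ 1 + θ 1 * θ 2 + θ 2 * θ 0)) 0)
    (Fin 3 → K) := Module.compHom _ (rep θ).toRingHom
  have hsmul : ∀ (t : TAlg K (-1) (θ 0 + θ 1 + θ 2) 1
      (-(θ 0 * θ 1 + θ 1 * θ 2 + θ 2 * θ 0)) 0) (v : Fin 3 → K), t • v = rep θ t v :=
    fun _ _ => rfl
  haveI : IsScalarTower K (TAlg K (-1) (θ 0 + θ 1 + θ 2) 1
      (-(θ 0 * θ 1 + θ 1 * θ 2 + θ 2 * θ 0)) 0) (Fin 3 → K) :=
    ⟨fun c t v => by rw [hsmul, hsmul, map_smul]; rfl⟩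
  refine ⟨-1, θ 0 + θ 1 + θ 2, 1, -(θ 0 * θ 1 + θ 1 * θ 2 + θ 2 * θ 0), 0, Fin 3 → K,
    inferInstance, inferInstance, inferInstance, inferInstance, inferInstance, ?_,
    opA θ, opB K, ?_, ?_, isDiag_opA θ, isDiag_opB, ?_, 1, 0, hasEigenvalue_one,
    hasEigenvalue_zero, ?_⟩
  · refine { exists_pair_ne := ⟨⊥, ⊤, bot_ne_top⟩, eq_bot_or_eq_top := fun W => ?_ }
    have h := eq_bot_or_eq_top hθ (W.restrictScalars K)
      (fun x hx => by
        have := W.smul_mem (gen K _ _ _ _ _ 0) hx
        rwa [hsmul, rep_gen_zero] at this)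
      (fun x hx => by
        have := W.smul_mem (gen K _ _ _ _ _ 1) hx
        rwa [hsmul, rep_gen_one] at this)
    rcases h with h | h
    · left
      exact (Submodule.restrictScalars_eq_bot_iff K _ _).1 h
    · right
      exact (Submodule.restrictScalars_eq_top_iff K _ _).1 h
  · intro v
    rw [hsmul, rep_gen_zero]
  · intro v
    rw [hsmul, rep_gen_one]
  · intro h
    exact not_actsTridiagonally hθ h.2.2.2.2.1
  · rw [finrank_eigenspace_one, finrank_eigenspace_zero]
    decide

end Pool.Agent.Results.MP_2c723a_al.UnequalEigenspaces
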